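import Mathlib
import Pool.Agent.W151.KW.Mod2

/-! # Block models with blocks longer than the square root (helper39; the proofs are those of helper151
in `Pool.Agent.W151.KW.Mod2` with a weaker hypothesis on the block lengths) -/

set_option autoImplicit false

namespace Pool.Agent.W39.AN

open Finset MeasureTheory Filter
open Pool.Agent.W151.KW

/-- block models with prescribed probabilities of empty blocks -/
theorem exists_model3 (K g m : ℕ → ℕ) (e : ℕ → ℝ) (k0 : ℕ) (h24 : 24 ≤ k0)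
    (hg : ∀ k, k0 ≤ k → g k ≤ k)
    (hg2 : ∀ k, k0 ≤ k → ((2 ^ g k : ℕ) : ℝ) ≤ ((2 ^ (k - g k) : ℕ) : ℝ) * ((k : ℝ) / 2) ^ 2)
    (hm : ∀ k, k0 ≤ k → 1 ≤ m k)
    (hK : ∀ k, k0 ≤ k → ∀ n, n < 2 ^ (k + 1) → K n ≤ 2 * m k + 1)
    (hmM : ∀ k, k0 ≤ k → (m k : ℝ) ≤ Mk g k) (he0 : ∀ k, 0 ≤ e k)
    (he : ∀ k, k0 ≤ k → e k ≤ Real.exp (-(m k * (67 + Real.log (2 * Mk g k / m k))))) :
    ∃ μ : Measure (ℕ × ℕ → FS), IsProbabilityMeasure μ ∧ IsModel μ K (ev g) ∧
      (∀ J : Finset (ℕ × ℕ), (∀ z ∈ J, Good g k0 z) → μ.real (⋂ z ∈ J, {ω | (ω z).set ≠ ∅}) =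
        ∏ z ∈ J, (1 - (pw (fun i => 1 / Real.log i) (bl g z) ∅ + e z.1))) ∧
      (∀ᵐ ω ∂μ, ∀ z, (ω z).set ⊆ bl g z) := by
  classical
  have hl2 := Real.log_pos (show (1 : ℝ) < 2 by norm_num)
  have hl2u := Real.log_two_lt_d9
  have hl2l := Real.log_two_gt_d9
  have key : ∀ z, ∃ ν : Finset ℕ → ℝ, (∀ S ⊆ bl g z, 0 ≤ ν S) ∧
      (∀ T ⊆ bl g z, (k0 ≤ z.1 → T.card ≤ 2 * m z.1 + 1) →
        ∑ S ∈ (bl g z).powerset, (if T ⊆ S then ν S else 0) = ∏ i ∈ T, pr i) ∧
      (Good g k0 z → ν ∅ = pw (fun i => 1 / Real.log i) (bl g z) ∅ + e z.1) := by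
    intro z
    by_cases hz : Good g k0 z
    · obtain ⟨k, b⟩ := z
      obtain ⟨hk, hb1, hb2⟩ := id hz
      simp only at hk hb1 hb2
      have hgk := hg k hk
      obtain ⟨h3, h4, h5⟩ := bl_good (by omega : g k ≤ k) hb1 hb2
      have hk24 : 24 ≤ k := h24.trans hk
      have hk' : (24 : ℝ) ≤ k := by exact_mod_cast hk24
      have hcard : (bl g (k, b)).card = 2 ^ g k := by
        rw [h3, Nat.card_Ico, Nat.add_mul, one_mul, Nat.add_sub_cancel_left]
      have h17' : 3 ≤ 2 ^ k := by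
        calc 3 ≤ 2 ^ 24 := by norm_num
          _ ≤ 2 ^ k := Nat.pow_le_pow_right (by norm_num) hk24
      have hgp : 0 < 2 ^ g k := by positivity
      have hb0 : 0 < b := lt_of_lt_of_le (by positivity) hb1
      have hbg : ((2 ^ g k : ℕ) : ℝ) ≤ b * ((k : ℝ) / 2) ^ 2 := by
        refine (hg2 k hk).trans ?_
        have : ((2 ^ (k - g k) : ℕ) : ℝ) ≤ b := by exact_mod_cast hb1
        gcongr
      set L : ℕ := b * 2 ^ g k with hL
      set U : ℕ := (b + 1) * 2 ^ g k with hU
      have hLU : L ≤ U := Nat.mul_le_mul_right _ (Nat.le_succ b)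
      have hL0 : 0 < L := by omega
      have hlL := le_log_of h4
      have hlU := log_le_of (by omega : 0 < U) h5
      push_cast at hlU
      have hLr : (0 : ℝ) < L := by exact_mod_cast hL0
      have hLUr : (L : ℝ) ≤ U := by exact_mod_cast hLU
      have hlLU : Real.log L ≤ Real.log U := Real.log_le_log hLr hLUr
      have hL16 : 16 ≤ Real.log L := by nlinarith
      have hq : ∀ i ∈ bl g (k, b), 1 / Real.log U ≤ 1 / Real.log i ∧ 1 / Real.log i ≤ 1 / Real.log L := by
        intro i hi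
        rw [h3, mem_Ico] at hi
        have h6 : (L : ℝ) ≤ i := by exact_mod_cast hi.1
        have h7 : (i : ℝ) ≤ U := by exact_mod_cast hi.2.le
        have h8 := Real.log_le_log hLr h6
        have h9 := Real.log_le_log (by linarith) h7
        exact ⟨one_div_le_one_div_of_le (by linarith) h9, one_div_le_one_div_of_le (by linarith) h8⟩
      have hdiff : Real.log U - Real.log L ≤ 1 / b := by
        have hbr : (0 : ℝ) < b := by exact_mod_cast hb0
        have h6 : (U : ℝ) / L = 1 + 1 / b := by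
          rw [hU, hL]
          push_cast
          field_simp
        rw [← Real.log_div (by linarith) hLr.ne', h6]
        have := Real.log_le_sub_one_of_pos (show (0 : ℝ) < 1 + 1 / b by positivity)
        linarith
      have hvar : ((2 ^ g k : ℕ) : ℝ) * (1 / Real.log L - 1 / Real.log U) ≤ 1 := by
        have hbr : (0 : ℝ) < b := by exact_mod_cast hb0
        have hk2 : (0 : ℝ) < ((k : ℝ) / 2) ^ 2 := by positivity
        have hLL : ((k : ℝ) / 2) ^ 2 ≤ Real.log L * Real.log U := by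
          have h9 : (k : ℝ) / 2 ≤ Real.log L := by nlinarith
          have h10 : (k : ℝ) / 2 ≤ Real.log U := h9.trans hlLU
          rw [sq]
          exact mul_le_mul h9 h10 (by positivity) (by linarith)
        have h6 : 1 / Real.log L - 1 / Real.log U ≤ 1 / b * (1 / ((k : ℝ) / 2) ^ 2) := by
          have h7 : 1 / Real.log L - 1 / Real.log U = (Real.log U - Real.log L) / (Real.log L * Real.log U) := by
            have : Real.log L ≠ 0 := by linarith
            have : Real.log U ≠ 0 := by linarith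
            field_simp
          rw [h7, div_le_iff₀ (hk2.trans_le hLL)]
          have h8 : 1 / (b : ℝ) * (1 / ((k : ℝ) / 2) ^ 2) * ((k : ℝ) / 2) ^ 2 = 1 / b := by
            field_simp
          have h11 : 1 / (b : ℝ) * (1 / ((k : ℝ) / 2) ^ 2) * ((k : ℝ) / 2) ^ 2 ≤
              1 / (b : ℝ) * (1 / ((k : ℝ) / 2) ^ 2) * (Real.log L * Real.log U) := by
            gcongr
          linarith
        calc ((2 ^ g k : ℕ) : ℝ) * (1 / Real.log L - 1 / Real.log U) ≤
            (b * ((k : ℝ) / 2) ^ 2) * (1 / b * (1 / ((k : ℝ) / 2) ^ 2)) := by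
              apply mul_le_mul hbg h6 _ (by positivity)
              have := one_div_le_one_div_of_le (by linarith : 0 < Real.log L) hlLU
              linarith
          _ = 1 := by
              have : (k : ℝ) ≠ 0 := by linarith
              field_simp
      have hMlow : Mk g k ≤ ((2 ^ g k : ℕ) : ℝ) * (1 / Real.log U) := by
        unfold Mk
        apply mul_le_mul_of_nonneg_left _ (Nat.cast_nonneg _)
        exact one_div_le_one_div_of_le (by linarith) hlU
      have hMup : ((2 ^ g k : ℕ) : ℝ) * (1 / Real.log U) ≤ 2 * Mk g k := by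
        unfold Mk
        rw [mul_comm 2, mul_assoc]
        apply mul_le_mul_of_nonneg_left _ (Nat.cast_nonneg _)
        rw [one_div_mul_eq_div, div_le_div_iff₀ (by linarith) (by positivity)]
        nlinarith
      have hmk := hmM k hk
      have hm1 : (1 : ℝ) ≤ m k := by exact_mod_cast hm k hk
      obtain ⟨ν, n1, n2, n3⟩ := block2 (2 ^ g k) (m k) (bl g (k, b)) (fun i => 1 / Real.log i)
        (1 / Real.log U) (1 / Real.log L) (((2 ^ g k : ℕ) : ℝ) * (1 / Real.log U)) (e k)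
        (hm k hk) hcard (one_div_pos.2 (by linarith)) hq
        (one_div_le_one_div_of_le (by norm_num) hL16) (one_div_le_one_div_of_le (by linarith) hlLU)
        hvar rfl (hmk.trans hMlow) (he0 k) (by
          refine (he k hk).trans (Real.exp_le_exp.2 ?_)
          have h6 : Real.log (((2 ^ g k : ℕ) : ℝ) * (1 / Real.log U) / m k) ≤
              Real.log (2 * Mk g k / m k) := by
            apply Real.log_le_log
            · have : 0 < ((2 ^ g k : ℕ) : ℝ) * (1 / Real.log U) := by linarith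
              positivity
            · gcongr
          have h7 : (m k : ℝ) * (67 + Real.log (((2 ^ g k : ℕ) : ℝ) * (1 / Real.log U) / m k)) ≤
              (m k : ℝ) * (67 + Real.log (2 * Mk g k / m k)) := by gcongr
          linarith)
      refine ⟨ν, n1, ?_, fun _ => n3⟩
      intro T hT hTc
      rw [n2 T hT (hTc hk)]
      refine Finset.prod_congr rfl fun i hi => ?_
      rw [pr, if_pos]
      have := hT hi
      rw [h3, mem_Ico] at this
      omega
    · exact ⟨pw pr (bl g z), fun S hS => pw_nonneg hS (fun i _ => pr_nonneg i) fun i _ => pr_le_one i,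
        fun T hT _ => sum_pw pr _ T hT, fun h => absurd h hz⟩
  choose ν n1 n2 n3 using key
  set kap : ℕ × ℕ → ℕ := fun z =>
    if k0 ≤ z.1 then 2 * m z.1 + 1 else (range (2 ^ (z.1 + 1))).sup K + 1 with hkap
  have hK2 : ∀ n i, n ≤ i → K n ≤ kap (bi g i) := by
    intro n i hni
    have h0 : n < 2 ^ ((bi g i).1 + 1) :=
      lt_of_le_of_lt hni (Nat.lt_pow_succ_log_self (by norm_num) i)
    rw [hkap]
    simp only
    split_ifs with h
    · exact hK _ h n h0
    · exact (Finset.le_sup (f := K) (mem_range.2 h0)).trans (Nat.le_succ _)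
  have hk1 : ∀ z, 1 ≤ kap z := by
    intro z
    rw [hkap]
    simp only
    split_ifs with h <;> exact Nat.le_add_left _ _
  have hk2 : ∀ z, ∀ T ⊆ bl g z, T.card ≤ kap z →
      ∑ S ∈ (bl g z).powerset, (if T ⊆ S then ν z S else 0) = ∏ i ∈ T, pr i := by
    intro z T hT hTc
    refine n2 z T hT fun h => ?_
    rw [hkap] at hTc
    simp only at hTc
    rwa [if_pos h] at hTc
  obtain ⟨μ, h1, h2, h3, h4⟩ := model K g kap ν hk1 hK2 n1 hk2
  refine ⟨μ, h1, h2, ?_, h4⟩
  intro J hJ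
  rw [h3 J]
  exact Finset.prod_congr rfl fun z hz => by rw [n3 z (hJ z hz)]

/-- models with long empty blocks -/
theorem sup_model3 (K g m : ℕ → ℕ) (k0 : ℕ) (h24 : 24 ≤ k0)
    (hg : ∀ k, k0 ≤ k → g k ≤ k)
    (hg2 : ∀ k, k0 ≤ k → ((2 ^ g k : ℕ) : ℝ) ≤ ((2 ^ (k - g k) : ℕ) : ℝ) * ((k : ℝ) / 2) ^ 2)
    (hm : ∀ k, k0 ≤ k → 1 ≤ m k)
    (hK : ∀ k, k0 ≤ k → ∀ n, n < 2 ^ (k + 1) → K n ≤ 2 * m k + 1)
    (hmM : ∀ k, k0 ≤ k → (m k : ℝ) ≤ Mk g k)
    (hs : ∀ k, k0 ≤ k → 2 * Real.log k ≤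
      ((2 ^ (k - g k) : ℕ) : ℝ) * Real.exp (-(m k * (67 + Real.log (2 * Mk g k / m k))))) :
    ∃ μ : Measure (ℕ × ℕ → FS), IsProbabilityMeasure μ ∧ IsModel μ K (ev g) ∧
      ∀ᵐ ω ∂μ, ∀ᶠ k : ℕ in atTop, ∃ a H : ℕ, 2 ^ k ≤ a ∧ a ≤ 2 ^ (k + 1) ∧
        H + 1 = 2 ^ g k ∧ ∀ n ∈ Ioc a (a + H), ω ∉ ev g n := by
  classical
  set e : ℕ → ℝ := fun k => Real.exp (-(m k * (67 + Real.log (2 * Mk g k / m k)))) with he
  have hpw : ∀ z, Good g k0 z → 0 ≤ pw (fun i => 1 / Real.log i) (bl g z) ∅ := by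
    rintro ⟨k, b⟩ ⟨h1, h2, h3⟩
    simp only at h1 h2 h3
    have h4 := hg k h1
    exact (pw_empty_le (by omega : 2 ≤ k) (by omega : g k ≤ k) h2 h3).1
  obtain ⟨μ, hμ, hM, hJ, hsub⟩ := exists_model3 K g m e k0 h24 hg hg2 hm hK hmM
    (fun k => (Real.exp_pos _).le) (fun k _ => le_rfl)
  refine ⟨μ, hμ, hM, ?_⟩
  have hsum2 : Summable (fun k : ℕ => 1 / (k : ℝ) ^ 2) := Real.summable_one_div_nat_pow.2 (by norm_num)
  have hexp2 : ∀ k, k0 ≤ k → Real.exp (-(2 * Real.log k)) = 1 / (k : ℝ) ^ 2 := by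
    intro k hk
    have h1 : (0 : ℝ) < k := by exact_mod_cast (by omega : 0 < k)
    rw [show (2 : ℝ) * Real.log k = Real.log ((k : ℝ) ^ 2) by rw [Real.log_pow]; norm_num,
      Real.exp_neg, Real.exp_log (by positivity), one_div]
  have hemp : ∀ᵐ ω ∂μ, ∀ᶠ k : ℕ in atTop, ω ∉ (⋂ z ∈ (Ico (2 ^ (k - g k)) (2 ^ (k - g k + 1))).image
      (fun b => (k, b)), {ω : ℕ × ℕ → FS | (ω z).set ≠ ∅}) := by
    refine Pool.Agent.W150.SM.bc hsum2 ?_
    refine eventually_atTop.2 ⟨k0, fun k hk => ?_⟩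
    set J := (Ico (2 ^ (k - g k)) (2 ^ (k - g k + 1))).image (fun b => ((k, b) : ℕ × ℕ)) with hJd
    have hgood : ∀ z ∈ J, Good g k0 z ∧ z.1 = k := by
      intro z hz
      rw [hJd, Finset.mem_image] at hz
      obtain ⟨b, hb, rfl⟩ := hz
      rw [mem_Ico] at hb
      exact ⟨⟨hk, hb.1, hb.2⟩, rfl⟩
    rw [hJ J fun z hz => (hgood z hz).1]
    have hc1 : J.card = 2 ^ (k - g k) := by
      rw [hJd, Finset.card_image_of_injective _ (fun a b h => (Prod.mk.inj h).2), Nat.card_Ico, pow_succ]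
      omega
    calc ∏ z ∈ J, (1 - (pw (fun i => 1 / Real.log i) (bl g z) ∅ + e z.1)) ≤
        ∏ z ∈ J, Real.exp (-(e k)) := by
          refine Finset.prod_le_prod (fun z hz => ?_) fun z hz => ?_
          · have h1 := hJ {z} (by simpa using (hgood z hz).1)
            rw [Finset.prod_singleton] at h1
            rw [← h1]
            exact measureReal_nonneg
          · have h1 := hpw z (hgood z hz).1
            have h3 := Real.add_one_le_exp (-(e k))
            rw [(hgood z hz).2]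
            linarith
      _ = Real.exp (-(((2 ^ (k - g k) : ℕ) : ℝ) * e k)) := by
          rw [Finset.prod_const, hc1, ← Real.exp_nat_mul]
          congr 1
          ring
      _ ≤ Real.exp (-(2 * Real.log k)) := by
          apply Real.exp_le_exp.2
          apply neg_le_neg
          exact hs k hk
      _ = _ := hexp2 k hk
  filter_upwards [hemp, hsub] with ω h2 h3
  filter_upwards [h2, eventually_ge_atTop k0] with k hk hk0
  rw [Set.mem_iInter₂] at hk
  push Not at hk
  obtain ⟨z, hz, hz2⟩ := hk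
  rw [Finset.mem_image] at hz
  obtain ⟨b, hb, rfl⟩ := hz
  rw [mem_Ico] at hb
  have hgk := hg k hk0
  obtain ⟨h4, h5, h6⟩ := bl_good (by omega : g k ≤ k) hb.1 hb.2
  have hp : 0 < 2 ^ g k := by positivity
  refine ⟨b * 2 ^ g k, 2 ^ g k - 1, h5, ?_, by omega, ?_⟩
  · have : b * 2 ^ g k ≤ (b + 1) * 2 ^ g k := Nat.mul_le_mul_right _ (Nat.le_succ b)
    omega
  · intro n hn hn2
    have h7 : n ∈ bl g (k, b) := by
      rw [h4, mem_Ico]
      rw [mem_Ioc] at hn
      rw [Nat.add_mul, one_mul]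
      omega
    have h8 := (mem_bl g _ n).1 h7
    change n ∈ (ω (bi g n)).set at hn2
    rw [h8] at hn2
    have hz3 : (ω (k, b)).set = ∅ := by
      by_contra h
      exact hz2 (Finset.nonempty_iff_ne_empty.2 h)
    rw [hz3] at hn2
    exact absurd hn2 (Finset.notMem_empty n)


end Pool.Agent.W39.AN
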