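import Mathlib
import Pool.Agent.W151.KW.Fix
import Pool.Agent.W39.AN.Mod3

/-! # Andrica's inequality in random models with prescribed correlations of bounded order
(helper39) -/

set_option autoImplicit false

namespace Pool.Agent.W39.AN

open Finset MeasureTheory Filter Topology
open Pool.Agent.W151.KW

/-- Andrica's difference `sqrt q_{i+1} - sqrt q_i` for the elements `q_0 < q_1 < ...` of `S` -/
noncomputable def dsq (S : Set ℕ) (i : ℕ) : ℝ :=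
  Real.sqrt (Nat.nth (· ∈ S) (i + 1)) - Real.sqrt (Nat.nth (· ∈ S) i)

theorem dsq_tendsto {S : Set ℕ} (hS : S.Infinite) {γ : ℝ} (hγ : γ < 1 / 2)
    (h : ∀ᶠ x : ℝ in atTop, ∃ n, n ∈ S ∧ x - x ^ γ < n ∧ (n : ℝ) < x) :
    Tendsto (dsq S) atTop (𝓝 0) := by
  have hinf : (Set.ofPred (fun n : ℕ => n ∈ S)).Infinite := hS
  have hq : Tendsto (fun i : ℕ => ((Nat.nth (· ∈ S) (i + 1) : ℕ) : ℝ)) atTop atTop := by
    refine tendsto_natCast_atTop_atTop.comp ?_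
    exact (Nat.nth_strictMono hinf).tendsto_atTop.comp (tendsto_add_atTop_nat 1)
  have h0 : Tendsto (fun i : ℕ => ((Nat.nth (· ∈ S) (i + 1) : ℕ) : ℝ) ^ (-(1 / 2 - γ))) atTop (𝓝 0) :=
    (tendsto_rpow_neg_atTop (by linarith : 0 < 1 / 2 - γ)).comp hq
  refine squeeze_zero' ?_ ?_ h0
  · refine Eventually.of_forall fun i => ?_
    unfold dsq
    have h1 : ((Nat.nth (· ∈ S) i : ℕ) : ℝ) ≤ ((Nat.nth (· ∈ S) (i + 1) : ℕ) : ℝ) := by
      exact_mod_cast (Nat.nth_strictMono hinf (Nat.lt_succ_self i)).le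
    have := Real.sqrt_le_sqrt h1
    linarith
  · filter_upwards [hq.eventually h, hq.eventually_gt_atTop 0] with i hi hpos
    obtain ⟨n, hn1, hn2, hn3⟩ := hi
    have hn3' : n < Nat.nth (· ∈ S) (i + 1) := by exact_mod_cast hn3
    have hle := Nat.le_nth_of_lt_nth_succ (p := fun n => n ∈ S) hn3' hn1
    have hle' : (n : ℝ) ≤ ((Nat.nth (· ∈ S) i : ℕ) : ℝ) := by exact_mod_cast hle
    unfold dsq
    set q : ℝ := ((Nat.nth (· ∈ S) i : ℕ) : ℝ) with hqd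
    set q' : ℝ := ((Nat.nth (· ∈ S) (i + 1) : ℕ) : ℝ) with hqd'
    have hq0 : 0 ≤ q := Nat.cast_nonneg _
    have h1 : q' - q ≤ q' ^ γ := by linarith
    have hs : 0 < Real.sqrt q' := Real.sqrt_pos.2 hpos
    have hs0 : 0 ≤ Real.sqrt q := Real.sqrt_nonneg _
    have e1 : Real.sqrt q' * Real.sqrt q' = q' := Real.mul_self_sqrt hpos.le
    have e2 : Real.sqrt q * Real.sqrt q = q := Real.mul_self_sqrt hq0
    have hlt : q < q' := by
      rw [hqd, hqd']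
      exact_mod_cast Nat.nth_strictMono hinf (Nat.lt_succ_self i)
    have hsl : Real.sqrt q ≤ Real.sqrt q' := Real.sqrt_le_sqrt hlt.le
    have e3 : q' ^ (-(1 / 2 - γ)) = q' ^ γ / Real.sqrt q' := by
      rw [Real.sqrt_eq_rpow, ← Real.rpow_sub hpos]
      congr 1
      ring
    rw [e3, le_div_iff₀ hs]
    nlinarith

theorem dsq_frequently {S : Set ℕ} (hS : S.Infinite)
    (h : ∀ C : ℝ, ∀ᶠ k : ℕ in atTop, ∃ a H : ℕ, 2 ^ k ≤ a ∧ C ≤ Real.sqrt ((a : ℝ) + H) - Real.sqrt a ∧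
      ∀ n ∈ Ioc a (a + H), n ∉ S) :
    ∀ C : ℝ, ∃ᶠ i : ℕ in atTop, C ≤ dsq S i := by
  intro C
  have hinf : (Set.ofPred (fun n : ℕ => n ∈ S)).Infinite := hS
  rw [frequently_atTop]
  intro N
  obtain ⟨k, hk1, hk2⟩ := ((h C).and (eventually_ge_atTop (Nat.nth (· ∈ S) (N + 3)))).exists
  obtain ⟨a, H, h1, h2, h4⟩ := hk1
  have h5 : Nat.nth (· ∈ S) (N + 3) < a + 1 := by
    have : k < 2 ^ k := Nat.lt_two_pow_self
    omega
  classical
  have h6 : N + 3 < Nat.count (· ∈ S) (a + 1) := (Nat.lt_nth_iff_count_lt hinf).2 h5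
  obtain ⟨i, hi⟩ : ∃ i, Nat.count (· ∈ S) (a + 1) = i + 1 := ⟨Nat.count (· ∈ S) (a + 1) - 1, by omega⟩
  refine ⟨i, by omega, ?_⟩
  have h7 : Nat.nth (· ∈ S) i < a + 1 := Nat.nth_lt_of_lt_count (by omega)
  have h8 : a + 1 ≤ Nat.nth (· ∈ S) (i + 1) := by
    have := Nat.le_nth_count hinf (a + 1)
    rwa [hi] at this
  have h9 : a + H < Nat.nth (· ∈ S) (i + 1) := by
    by_contra hcon
    exact h4 _ (mem_Ioc.2 ⟨by omega, by omega⟩) (Nat.nth_mem_of_infinite hinf (i + 1))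
  unfold dsq
  have h10 : (a : ℝ) + H ≤ ((Nat.nth (· ∈ S) (i + 1) : ℕ) : ℝ) := by exact_mod_cast h9.le
  have h11 : ((Nat.nth (· ∈ S) i : ℕ) : ℝ) ≤ a := by exact_mod_cast (by omega : Nat.nth (· ∈ S) i ≤ a)
  have h12 := Real.sqrt_le_sqrt h10
  have h13 := Real.sqrt_le_sqrt h11
  linarith

/-- the excess of the exponent of the block length -/
def cc (k : ℕ) : ℕ := Nat.log 2 (Nat.sqrt k)

/-- the exponent of the block length -/
def gg (k : ℕ) : ℕ := (k + cc k) / 2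

theorem pow_cc {k : ℕ} (hk : 1 ≤ k) : 2 ^ cc k ≤ Nat.sqrt k := by
  apply Nat.pow_log_le_self
  have : 0 < Nat.sqrt k := Nat.sqrt_pos.2 hk
  omega

theorem cc_le (k : ℕ) : cc k ≤ k := (Nat.log_le_self _ _).trans (Nat.sqrt_le_self k)

theorem gg_le (k : ℕ) : gg k ≤ k := by
  have := cc_le k
  unfold gg
  omega

theorem cc_large (D : ℕ) : ∀ᶠ k : ℕ in atTop, D ≤ cc k := by
  filter_upwards [eventually_ge_atTop (2 ^ D * 2 ^ D)] with k hk
  have h1 : 2 ^ D ≤ Nat.sqrt k := Nat.le_sqrt.2 hk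
  exact Nat.le_log_of_pow_le (by norm_num) h1

theorem two_pow_half {j : ℕ} (hj : 3 ≤ j) : 2 * j + 2 ≤ 2 ^ j := by
  induction j, hj using Nat.le_induction with
  | base => norm_num
  | succ j hj ih =>
    rw [pow_succ]
    omega

theorem cond2 {k : ℕ} (hk : 4 ≤ k) :
    ((2 ^ gg k : ℕ) : ℝ) ≤ ((2 ^ (k - gg k) : ℕ) : ℝ) * ((k : ℝ) / 2) ^ 2 := by
  have h1 : 2 ^ gg k ≤ 2 ^ (k - gg k) * 2 ^ cc k := by
    rw [← pow_add]
    apply Nat.pow_le_pow_right (by norm_num)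
    have := gg_le k
    have := cc_le k
    unfold gg at *
    omega
  have h2 : 2 ^ cc k ≤ k := (pow_cc (by omega)).trans (Nat.sqrt_le_self k)
  have h3 : ((2 ^ gg k : ℕ) : ℝ) ≤ ((2 ^ (k - gg k) : ℕ) : ℝ) * ((2 ^ cc k : ℕ) : ℝ) := by
    exact_mod_cast h1
  have h4 : ((2 ^ cc k : ℕ) : ℝ) ≤ k := by exact_mod_cast h2
  have h5 : (4 : ℝ) ≤ k := by exact_mod_cast hk
  have h6 : (k : ℝ) ≤ ((k : ℝ) / 2) ^ 2 := by nlinarith
  refine h3.trans ?_
  gcongr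
  exact h4.trans h6

theorem cond3 {k : ℕ} (hk : 6 ≤ k) : (1 : ℝ) ≤ Mk gg k := by
  have hl2 := Real.log_pos (show (1 : ℝ) < 2 by norm_num)
  have hl2u := Real.log_two_lt_d9
  have h1 : k + 1 ≤ 2 ^ gg k := by
    have h2 := two_pow_half (by omega : 3 ≤ k / 2)
    have h3 : 2 ^ (k / 2) ≤ 2 ^ gg k := Nat.pow_le_pow_right (by norm_num) (by unfold gg; omega)
    omega
  unfold Mk
  rw [mul_one_div, le_div_iff₀ (by positivity)]
  have h2 : (k : ℝ) + 1 ≤ ((2 ^ gg k : ℕ) : ℝ) := by exact_mod_cast h1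
  have h3 : ((k : ℝ) + 1) * Real.log 2 ≤ ((k : ℝ) + 1) * 1 := by gcongr; linarith
  linarith

theorem cond4 : ∀ᶠ k : ℕ in atTop, 2 * Real.log k ≤ ((2 ^ (k - gg k) : ℕ) : ℝ) *
    Real.exp (-(((1 : ℕ) : ℝ) * (67 + Real.log (2 * Mk gg k / ((1 : ℕ) : ℝ))))) := by
  have hl2 := Real.log_pos (show (1 : ℝ) < 2 by norm_num)
  have hl2l := Real.log_two_gt_d9
  have h1 := ((isLittleO_log_rpow_atTop (by norm_num : (0 : ℝ) < 1 / 2)).bound
    (by positivity : 0 < Real.exp (-67) / 8))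
  have h2 := (tendsto_natCast_atTop_atTop (R := ℝ)).eventually h1
  filter_upwards [h2, eventually_ge_atTop 4] with k hk hk4
  have hk0 : (0 : ℝ) < k := by exact_mod_cast (by omega : 0 < k)
  have hM0 := Mk_pos gg k
  rw [Real.norm_eq_abs, Real.norm_eq_abs, abs_of_nonneg (Real.log_natCast_nonneg k),
    abs_of_nonneg (by positivity), ← Real.sqrt_eq_rpow] at hk
  have e1 : Real.exp (-(((1 : ℕ) : ℝ) * (67 + Real.log (2 * Mk gg k / ((1 : ℕ) : ℝ))))) =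
      Real.exp (-67) / (2 * Mk gg k) := by
    rw [Nat.cast_one, one_mul, div_one, neg_add, Real.exp_add, Real.exp_neg (Real.log _),
      Real.exp_log (by positivity)]
    rfl
  rw [e1]
  have h3 : ((2 ^ gg k : ℕ) : ℝ) ≤ ((2 ^ (k - gg k) : ℕ) : ℝ) * ((2 ^ cc k : ℕ) : ℝ) := by
    have h1 : 2 ^ gg k ≤ 2 ^ (k - gg k) * 2 ^ cc k := by
      rw [← pow_add]
      apply Nat.pow_le_pow_right (by norm_num)
      have := gg_le k
      have := cc_le k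
      unfold gg at *
      omega
    exact_mod_cast h1
  have h4 : ((2 ^ cc k : ℕ) : ℝ) ≤ Real.sqrt k := by
    have h5 : ((2 ^ cc k : ℕ) : ℝ) ≤ ((Nat.sqrt k : ℕ) : ℝ) := by exact_mod_cast pow_cc (by omega : 1 ≤ k)
    exact h5.trans Real.nat_sqrt_le_real_sqrt
  have hsk : 0 < Real.sqrt k := Real.sqrt_pos.2 hk0
  have hss : Real.sqrt k * Real.sqrt k = k := Real.mul_self_sqrt hk0.le
  have hP : (0 : ℝ) < ((2 ^ (k - gg k) : ℕ) : ℝ) := by positivity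
  -- upper bound for `Mk`
  have h6 : Mk gg k * Real.sqrt k ≤ 2 * ((2 ^ (k - gg k) : ℕ) : ℝ) := by
    unfold Mk
    rw [mul_one_div, div_mul_eq_mul_div, div_le_iff₀ (by positivity)]
    have h7 : ((2 ^ gg k : ℕ) : ℝ) * Real.sqrt k ≤ ((2 ^ (k - gg k) : ℕ) : ℝ) * k := by
      calc ((2 ^ gg k : ℕ) : ℝ) * Real.sqrt k ≤
          (((2 ^ (k - gg k) : ℕ) : ℝ) * ((2 ^ cc k : ℕ) : ℝ)) * Real.sqrt k := by gcongr
        _ ≤ (((2 ^ (k - gg k) : ℕ) : ℝ) * Real.sqrt k) * Real.sqrt k := by gcongr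
        _ = ((2 ^ (k - gg k) : ℕ) : ℝ) * k := by rw [mul_assoc, hss]
    have h8 : (k : ℝ) ≤ 2 * (((k : ℝ) + 1) * Real.log 2) := by nlinarith
    calc ((2 ^ gg k : ℕ) : ℝ) * Real.sqrt k ≤ ((2 ^ (k - gg k) : ℕ) : ℝ) * k := h7
      _ ≤ ((2 ^ (k - gg k) : ℕ) : ℝ) * (2 * (((k : ℝ) + 1) * Real.log 2)) := by gcongr
      _ = _ := by ring
  rw [mul_div_assoc', le_div_iff₀ (by positivity)]
  calc 2 * Real.log k * (2 * Mk gg k) ≤ 2 * (Real.exp (-67) / 8 * Real.sqrt k) * (2 * Mk gg k) := by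
        gcongr
    _ = Real.exp (-67) / 2 * (Mk gg k * Real.sqrt k) := by ring
    _ ≤ Real.exp (-67) / 2 * (2 * ((2 ^ (k - gg k) : ℕ) : ℝ)) := by gcongr
    _ = _ := by ring

theorem cond5 (C : ℝ) : ∀ᶠ k : ℕ in atTop, ∀ a H : ℕ, a ≤ 2 ^ (k + 1) → H + 1 = 2 ^ gg k →
    C ≤ Real.sqrt ((a : ℝ) + H) - Real.sqrt a := by
  wlog hC : 0 ≤ C generalizing C with hw
  · filter_upwards [hw 0 le_rfl] with k hk a H ha hH
    have := hk a H ha hH
    linarith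
  obtain ⟨D, hD⟩ := pow_unbounded_of_one_lt ((4 * C + 1) ^ 2) (by norm_num : (1 : ℝ) < 2)
  obtain ⟨E, hE⟩ := exists_nat_ge ((C ^ 2 + 1) ^ 2)
  filter_upwards [cc_large (D + 1), eventually_ge_atTop E] with k hk hkE a H ha hH
  set T : ℝ := Real.sqrt ((2 : ℝ) ^ k) with hT
  have hT2 : T * T = (2 : ℝ) ^ k := Real.mul_self_sqrt (by positivity)
  have hT0 : 0 ≤ T := Real.sqrt_nonneg _
  have hTC : C ^ 2 + 1 ≤ T := by
    apply Real.le_sqrt_of_sq_le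
    have h1 : (k : ℝ) ≤ (2 : ℝ) ^ k := by exact_mod_cast (Nat.lt_two_pow_self (n := k)).le
    have h2 : (E : ℝ) ≤ k := by exact_mod_cast hkE
    linarith
  -- lower bound for the block length
  have h1 : T * (4 * C + 1) ≤ (2 : ℝ) ^ gg k := by
    apply le_of_sq_le_sq _ (by positivity)
    have h2 : k + D ≤ gg k * 2 := by unfold gg; omega
    have h3 : (2 : ℝ) ^ (k + D) ≤ (2 : ℝ) ^ (gg k * 2) := pow_le_pow_right₀ (by norm_num) h2
    calc (T * (4 * C + 1)) ^ 2 = (T * T) * (4 * C + 1) ^ 2 := by ring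
      _ ≤ (2 : ℝ) ^ k * (2 : ℝ) ^ D := by rw [hT2]; gcongr
      _ = (2 : ℝ) ^ (k + D) := by rw [pow_add]
      _ ≤ _ := by rw [← pow_mul]; exact h3
  have hHr : (H : ℝ) + 1 = (2 : ℝ) ^ gg k := by exact_mod_cast hH
  have har : (a : ℝ) ≤ (2 : ℝ) ^ (k + 1) := by exact_mod_cast ha
  have hsa : Real.sqrt a ≤ 2 * T := by
    apply Real.sqrt_le_iff.2
    refine ⟨by positivity, ?_⟩
    calc (a : ℝ) ≤ (2 : ℝ) ^ (k + 1) := har
      _ = 2 * (T * T) := by rw [hT2, pow_succ]; ring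
      _ ≤ (2 * T) ^ 2 := by nlinarith
  have hsa0 : 0 ≤ Real.sqrt a := Real.sqrt_nonneg _
  have hsaa : Real.sqrt a * Real.sqrt a = a := Real.mul_self_sqrt (Nat.cast_nonneg _)
  have h4 : Real.sqrt a + C ≤ Real.sqrt ((a : ℝ) + H) := by
    apply Real.le_sqrt_of_sq_le
    nlinarith
  linarith

/-- a model of level three in which Andrica's difference is unbounded -/
theorem lower3 : ∃ (μ : Measure (ℕ × ℕ → FS)) (A : ℕ → Set (ℕ × ℕ → FS)), IsProbabilityMeasure μ ∧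
      IsModel μ (fun _ => 3) A ∧ ∀ᵐ ω ∂μ, {n | ω ∈ A n}.Infinite ∧
      ∀ C : ℝ, ∃ᶠ i : ℕ in atTop, C ≤ dsq {n | ω ∈ A n} i := by
  obtain ⟨k0, hk0⟩ := eventually_atTop.1 cond4
  obtain ⟨μ, hμ, hM, hω⟩ := sup_model3 (fun _ => 3) gg (fun _ => 1) (max k0 24) (le_max_right _ _)
    (fun k _ => gg_le k) (fun k hk => cond2 (by have := (le_max_right k0 24).trans hk; omega))
    (fun _ _ => le_rfl) (fun _ _ _ _ => by norm_num)
    (fun k hk => by
      have := cond3 (k := k) (by have := (le_max_right k0 24).trans hk; omega)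
      exact_mod_cast this)
    (fun k hk => hk0 k ((le_max_left _ _).trans hk))
  refine ⟨μ, ev gg, hμ, hM, ?_⟩
  filter_upwards [hω, upper_fix hM (m := 1) (n0 := 0) le_rfl (by norm_num)] with ω hω h2
  refine ⟨h2.1, dsq_frequently h2.1 ?_⟩
  intro C
  filter_upwards [hω, cond5 C] with k hk hk5
  obtain ⟨a, H, b1, b2, b3, b4⟩ := hk
  exact ⟨a, H, b1, hk5 a H b2 b3, b4⟩

/-- every model of level four satisfies Andrica's inequality for large elements -/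
theorem upper4 {Ω : Type*} [MeasurableSpace Ω] {μ : Measure Ω} {K : ℕ → ℕ} {A : ℕ → Set Ω}
    [IsProbabilityMeasure μ] (hM : IsModel μ K A) (hK : ∃ n, 4 ≤ K n) :
    ∀ᵐ ω ∂μ, {n | ω ∈ A n}.Infinite ∧ Tendsto (dsq {n | ω ∈ A n}) atTop (𝓝 0) := by
  obtain ⟨n0, hn0⟩ := hK
  filter_upwards [upper_fix hM (m := 2) (n0 := n0) (by norm_num) (by omega)] with ω hω
  refine ⟨hω.1, dsq_tendsto hω.1 (γ := 2 / 5) (by norm_num) ?_⟩
  exact hω.2 (2 / 5) (by norm_num)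

end Pool.Agent.W39.AN
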